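import Pool.Agent.N708.MX.Stm

/-!
# Project MX (helper708): the algebra (S_ALG)

Level `k` is the space `W k` of the functions on the binary words of length `< k`.
-/

set_option autoImplicit false

namespace Pool.Agent.N946.MX

noncomputable section

/-- the field with 257 elements -/
abbrev F : Type := ZMod 257

instance : Fact (Nat.Prime 257) := ⟨by norm_num⟩

/-- binary words of length `< k` -/
abbrev Ix (k : ℕ) : Type := {l : List Bool // l.length < k}

/-- the functions -/
abbrev W (k : ℕ) : Type := Ix k → F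

instance (k : ℕ) : Finite (Ix k) := (List.finite_length_lt Bool k).to_subtype

/-- value at a word, 0 if the word is too long -/
def ev (k : ℕ) (g : W k) (l : List Bool) : F := if h : l.length < k then g ⟨l, h⟩ else 0

theorem ev_add (k : ℕ) (g g' : W k) (l : List Bool) : ev k (g + g') l = ev k g l + ev k g' l := by
  unfold ev
  split_ifs <;> simp

theorem ev_smul (k : ℕ) (c : F) (g : W k) (l : List Bool) : ev k (c • g) l = c * ev k g l := by
  unfold ev
  split_ifs <;> simp

theorem ev_of (k : ℕ) (g : W k) (l : List Bool) (h : l.length < k) : ev k g l = g ⟨l, h⟩ := by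
  unfold ev
  rw [dif_pos h]

theorem ev_not (k : ℕ) (g : W k) (l : List Bool) (h : ¬ l.length < k) : ev k g l = 0 := by
  unfold ev
  rw [dif_neg h]

/-- two functions are equal if they have the same values -/
theorem ext_ev {k : ℕ} {g g' : W k} (h : ∀ l : List Bool, l.length < k → ev k g l = ev k g' l) :
    g = g' := by
  ext ⟨l, hl⟩
  have := h l hl
  rwa [ev_of _ _ _ hl, ev_of _ _ _ hl] at this

/-- the value of the push: `0` at the empty word -/
def push (b : Bool) (v : List Bool → F) : List Bool → F
  | [] => 0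
  | c :: l => if c = b then v l else 0

/-- linear map given by values -/
def mk (k k' : ℕ) (T : (List Bool → F) → (List Bool → F))
    (ha : ∀ v v' l, T (fun l => v l + v' l) l = T v l + T v' l)
    (hs : ∀ (c : F) v l, T (fun l => c * v l) l = c * T v l) : W k →ₗ[F] W k' where
  toFun g := fun w => T (ev k g) w.1
  map_add' g g' := by
    ext w
    have : ev k (g + g') = fun l => ev k g l + ev k g' l := funext fun l => ev_add k g g' l
    simp only [this, ha, Pi.add_apply]
  map_smul' c g := by
    ext w
    have : ev k (c • g) = fun l => c * ev k g l := funext fun l => ev_smul k c g l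
    simp only [this, hs, RingHom.id_apply, Pi.smul_apply, smul_eq_mul]

theorem ev_mk (k k' : ℕ) (T : (List Bool → F) → (List Bool → F)) (ha) (hs) (g : W k)
    (l : List Bool) (hl : l.length < k') : ev k' (mk k k' T ha hs g) l = T (ev k g) l := by
  rw [ev_of _ _ _ hl]
  rfl

/-- the shift `(x g)(w) = g (b w)` between levels -/
def xx (b : Bool) (k k' : ℕ) : W k →ₗ[F] W k' :=
  mk k k' (fun v l => v (b :: l)) (fun _ _ _ => rfl) (fun _ _ _ => rfl)

/-- the push between levels -/
def yy (b : Bool) (k k' : ℕ) : W k →ₗ[F] W k' :=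
  mk k k' (push b) (by
    intro v v' l
    cases l with
    | nil => simp [push]
    | cons c l => simp only [push]; split_ifs <;> simp) (by
    intro c v l
    cases l with
    | nil => simp [push]
    | cons c l => simp only [push]; split_ifs <;> simp)

theorem ev_xx (b : Bool) (k k' : ℕ) (g : W k) (l : List Bool) (hl : l.length < k') :
    ev k' (xx b k k' g) l = ev k g (b :: l) := ev_mk _ _ _ _ _ _ _ hl

theorem ev_yy (b : Bool) (k k' : ℕ) (g : W k) (l : List Bool) (hl : l.length < k') :
    ev k' (yy b k k' g) l = push b (ev k g) l := ev_mk _ _ _ _ _ _ _ hl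

theorem len_cons {b : Bool} {l : List Bool} {k : ℕ} : (b :: l).length < k + 1 ↔ l.length < k := by
  simp

/-- the values of `xx` at all words, when the target level is large enough -/
theorem ev_xx' (b : Bool) (k : ℕ) (g : W k) (l : List Bool) :
    ev k (xx b k k g) l = ev k g (b :: l) := by
  by_cases hl : l.length < k
  · exact ev_xx _ _ _ _ _ hl
  · rw [ev_not _ _ _ hl, ev_not]
    rw [List.length_cons]
    omega

theorem ev_pi (k : ℕ) (g : W (k + 1)) (l : List Bool) :
    ev k (xx false (k + 1) k g) l = ev (k + 1) g (false :: l) := by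
  by_cases hl : l.length < k
  · exact ev_xx _ _ _ _ _ hl
  · rw [ev_not _ _ _ hl, ev_not]
    rw [List.length_cons]
    omega

theorem push_congr (b : Bool) {v v' : List Bool → F} {l : List Bool} {k : ℕ} (hl : l.length < k + 1)
    (h : ∀ l : List Bool, l.length < k → v l = v' l) : push b v l = push b v' l := by
  cases l with
  | nil => rfl
  | cons c l =>
    simp only [push]
    rw [h l (len_cons.1 hl)]

/-- `π ι = 1` -/
theorem pi_io (k : ℕ) : xx false (k + 1) k ∘ₗ yy false k (k + 1) = LinearMap.id := by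
  refine LinearMap.ext fun g => ?_
  apply ext_ev
  intro l hl
  simp only [LinearMap.comp_apply, LinearMap.id_apply]
  rw [ev_pi, ev_yy _ _ _ _ _ (len_cons.2 hl)]
  simp [push]

theorem id1 (k : ℕ) : yy false k (k + 1) ∘ₗ xx false (k + 1) k =
    yy false (k + 1) (k + 1) ∘ₗ xx false (k + 1) (k + 1) := by
  refine LinearMap.ext fun g => ?_
  apply ext_ev
  intro l hl
  simp only [LinearMap.comp_apply]
  rw [ev_yy _ _ _ _ _ hl, ev_yy _ _ _ _ _ hl]
  refine push_congr _ hl fun l' _ => ?_
  rw [ev_pi, ev_xx']

theorem id2 (b : Bool) (k : ℕ) : yy false k (k + 1) ∘ₗ xx b k k ∘ₗ xx false (k + 1) k =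
    yy false (k + 1) (k + 1) ∘ₗ xx b (k + 1) (k + 1) ∘ₗ xx false (k + 1) (k + 1) := by
  refine LinearMap.ext fun g => ?_
  apply ext_ev
  intro l hl
  simp only [LinearMap.comp_apply]
  rw [ev_yy _ _ _ _ _ hl, ev_yy _ _ _ _ _ hl]
  refine push_congr _ hl fun l' _ => ?_
  rw [ev_xx', ev_pi, ev_xx', ev_xx']

theorem id3 (b : Bool) (k : ℕ) : yy false k (k + 1) ∘ₗ yy b k k ∘ₗ xx false (k + 1) k =
    yy false (k + 1) (k + 1) ∘ₗ yy b (k + 1) (k + 1) ∘ₗ xx false (k + 1) (k + 1) := by
  refine LinearMap.ext fun g => ?_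
  apply ext_ev
  intro l hl
  simp only [LinearMap.comp_apply]
  rw [ev_yy _ _ _ _ _ hl, ev_yy _ _ _ _ _ hl]
  refine push_congr _ hl fun l' hl' => ?_
  rw [ev_yy _ _ _ _ _ hl', ev_yy _ _ _ _ _ (by omega)]
  congr 1
  ext l''
  rw [ev_pi, ev_xx']

theorem ev_sub (k : ℕ) (g g' : W k) (l : List Bool) : ev k (g - g') l = ev k g l - ev k g' l := by
  unfold ev
  split_ifs <;> simp

theorem id4 (k : ℕ) : yy false (k + 1) (k + 1) ∘ₗ xx true (k + 1) (k + 1) ∘ₗ
    (LinearMap.id - yy false (k + 1) (k + 1) ∘ₗ xx false (k + 1) (k + 1)) ∘ₗ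
    yy true (k + 1) (k + 1) ∘ₗ xx false (k + 1) (k + 1) =
    yy false (k + 1) (k + 1) ∘ₗ xx false (k + 1) (k + 1) := by
  refine LinearMap.ext fun g => ?_
  apply ext_ev
  intro l hl
  simp only [LinearMap.comp_apply, LinearMap.sub_apply, LinearMap.id_apply]
  rw [ev_yy _ _ _ _ _ hl, ev_yy _ _ _ _ _ hl]
  refine push_congr _ hl fun l' hl' => ?_
  rw [ev_xx', ev_sub, ev_yy _ _ _ _ _ (len_cons.2 hl'), ev_yy _ _ _ _ _ (len_cons.2 hl')]
  simp [push]

/-- the product ring -/
abbrev R : Type := ∀ k : ℕ, Module.End F (W k)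

/-- one step of the shift of levels -/
def Psi0 (a : R) : R
  | 0 => 0
  | k + 1 => yy false k (k + 1) ∘ₗ a k ∘ₗ xx false (k + 1) k

/-- the shift of levels -/
def Psi : R →ₙ+* R where
  toFun := Psi0
  map_mul' a b := by
    funext k
    cases k with
    | zero => simp [Psi0]
    | succ k =>
      show yy false k (k + 1) ∘ₗ (a k * b k) ∘ₗ xx false (k + 1) k =
        (yy false k (k + 1) ∘ₗ a k ∘ₗ xx false (k + 1) k) ∘ₗ
          (yy false k (k + 1) ∘ₗ b k ∘ₗ xx false (k + 1) k)
      have h := pi_io k
      refine LinearMap.ext fun g => ?_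
      simp only [LinearMap.comp_apply]
      have h2 := LinearMap.congr_fun h (b k (xx false (k + 1) k g))
      simp only [LinearMap.comp_apply, LinearMap.id_apply] at h2
      rw [h2]
      rfl
  map_zero' := by
    funext k
    cases k with
    | zero => rfl
    | succ k =>
      show yy false k (k + 1) ∘ₗ (0 : Module.End F (W k)) ∘ₗ xx false (k + 1) k = 0
      rw [LinearMap.zero_comp, LinearMap.comp_zero]
  map_add' a b := by
    funext k
    cases k with
    | zero => simp [Psi0]
    | succ k =>
      show yy false k (k + 1) ∘ₗ (a k + b k) ∘ₗ xx false (k + 1) k =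
        (yy false k (k + 1) ∘ₗ a k ∘ₗ xx false (k + 1) k) +
          (yy false k (k + 1) ∘ₗ b k ∘ₗ xx false (k + 1) k)
      rw [LinearMap.add_comp, LinearMap.comp_add]

theorem Psi_zero (a : R) : Psi a 0 = 0 := rfl

theorem Psi_succ (a : R) (k : ℕ) :
    Psi a (k + 1) = yy false k (k + 1) ∘ₗ a k ∘ₗ xx false (k + 1) k := rfl

theorem Psi_smul (c : F) (a : R) : Psi (c • a) = c • Psi a := by
  funext k
  cases k with
  | zero => rw [Psi_zero, Pi.smul_apply, Psi_zero, smul_zero]
  | succ k =>
    rw [Psi_succ, Pi.smul_apply, Pi.smul_apply, Psi_succ]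
    refine LinearMap.ext fun g => ?_
    simp

/-- the generators -/
def X (b : Bool) : R := fun k => xx b k k

/-- the generators -/
def Y (b : Bool) : R := fun k => yy b k k

theorem zero_level (a b : R) : a 0 = b 0 := by
  refine LinearMap.ext fun g => ?_
  apply ext_ev
  intro l hl
  omega

theorem Psi_one : Psi 1 = Y false * X false := by
  funext k
  cases k with
  | zero => exact zero_level _ _
  | succ k =>
    rw [Psi_succ]
    exact id1 k

theorem Psi_X (b : Bool) : Psi (X b) = Y false * X b * X false := by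
  funext k
  cases k with
  | zero => exact zero_level _ _
  | succ k =>
    rw [Psi_succ]
    exact id2 b k

theorem Psi_Y (b : Bool) : Psi (Y b) = Y false * Y b * X false := by
  funext k
  cases k with
  | zero => exact zero_level _ _
  | succ k =>
    rw [Psi_succ]
    exact id3 b k

theorem cancel : (Y false * X true) * (1 - Psi 1) * (Y true * X false) = Psi 1 := by
  rw [Psi_one]
  funext k
  cases k with
  | zero => exact zero_level _ _
  | succ k => exact id4 k

/-- the generators as a family -/
def gen : Fin 4 → R := ![X false, X true, Y false, Y true]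

/-- the algebra -/
abbrev A : Type := Algebra.adjoin F (Set.range gen)

theorem mem_X (b : Bool) : X b ∈ Algebra.adjoin F (Set.range gen) := by
  refine Algebra.subset_adjoin ?_
  cases b
  · exact ⟨0, rfl⟩
  · exact ⟨1, rfl⟩

theorem mem_Y (b : Bool) : Y b ∈ Algebra.adjoin F (Set.range gen) := by
  refine Algebra.subset_adjoin ?_
  cases b
  · exact ⟨2, rfl⟩
  · exact ⟨3, rfl⟩

theorem Psi_mem {a : R} (ha : a ∈ Algebra.adjoin F (Set.range gen)) :
    Psi a ∈ Algebra.adjoin F (Set.range gen) := by
  induction ha using Algebra.adjoin_induction with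
  | mem x hx =>
    obtain ⟨i, rfl⟩ := hx
    fin_cases i
    · show Psi (X false) ∈ _
      rw [Psi_X]
      exact mul_mem (mul_mem (mem_Y _) (mem_X _)) (mem_X _)
    · show Psi (X true) ∈ _
      rw [Psi_X]
      exact mul_mem (mul_mem (mem_Y _) (mem_X _)) (mem_X _)
    · show Psi (Y false) ∈ _
      rw [Psi_Y]
      exact mul_mem (mul_mem (mem_Y _) (mem_Y _)) (mem_X _)
    · show Psi (Y true) ∈ _
      rw [Psi_Y]
      exact mul_mem (mul_mem (mem_Y _) (mem_Y _)) (mem_X _)
  | algebraMap r =>
    rw [Algebra.algebraMap_eq_smul_one, Psi_smul, Psi_one]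
    exact Subalgebra.smul_mem _ (mul_mem (mem_Y _) (mem_X _)) _
  | add x y _ _ hx hy =>
    rw [map_add]
    exact add_mem hx hy
  | mul x y _ _ hx hy =>
    rw [map_mul]
    exact mul_mem hx hy

/-- the endomorphism of the algebra -/
def psi : A →ₙ+* A where
  toFun a := ⟨Psi a.1, Psi_mem a.2⟩
  map_mul' a b := Subtype.ext (map_mul Psi a.1 b.1)
  map_zero' := Subtype.ext (map_zero Psi)
  map_add' a b := Subtype.ext (map_add Psi a.1 b.1)

theorem psi_val (a : A) : (psi a).1 = Psi a.1 := rfl

theorem iter_val (j : ℕ) (a : A) : (psi^[j] a).1 = Psi^[j] a.1 := by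
  induction j generalizing a with
  | zero => rfl
  | succ j ih => rw [Function.iterate_succ_apply, Function.iterate_succ_apply, ih, psi_val]

theorem iter_ne (j : ℕ) : ∀ k : ℕ, j < k → (Psi^[j] (1 : R)) k ≠ 0 := by
  induction j with
  | zero =>
    intro k hk h
    have h1 := LinearMap.congr_fun h (fun _ => (1 : F))
    have h2 := congrFun h1 ⟨[], by simpa using hk⟩
    exact one_ne_zero h2
  | succ j ih =>
    intro k hk
    obtain ⟨k, rfl⟩ : ∃ k', k = k' + 1 := ⟨k - 1, by omega⟩
    rw [Function.iterate_succ_apply', Psi_succ]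
    intro h
    refine ih k (by omega) ?_
    refine LinearMap.ext fun g => ?_
    have h1 := LinearMap.congr_fun h (yy false k (k + 1) g)
    simp only [LinearMap.comp_apply] at h1
    have h2 := LinearMap.congr_fun (pi_io k) g
    simp only [LinearMap.comp_apply, LinearMap.id_apply] at h2
    rw [h2] at h1
    have h3 := congrArg (xx false (k + 1) k) h1
    have h4 := LinearMap.congr_fun (pi_io k) ((Psi^[j] (1 : R)) k g)
    simp only [LinearMap.comp_apply, LinearMap.id_apply] at h4
    rw [h4] at h3
    rw [h3]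
    simp

/-- the action on one level -/
def rho (k : ℕ) : A →+* AddMonoid.End (W k) where
  toFun a := (a.1 k).toAddMonoidHom
  map_one' := rfl
  map_mul' _ _ := rfl
  map_zero' := rfl
  map_add' _ _ := rfl

theorem t_alg : Pool.Agent.N708.MX.S_ALG := by
  refine ⟨F, inferInstance, inferInstance, A, inferInstance, inferInstance,
    fun i => ⟨gen i, Algebra.subset_adjoin ⟨i, rfl⟩⟩, psi, ⟨Y false * X true, mul_mem (mem_Y _) (mem_X _)⟩,
    ⟨Y true * X false, mul_mem (mem_Y _) (mem_X _)⟩, ?_, ?_, ?_, ?_⟩
  · rw [ZMod.card]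
    norm_num
  · have h := Algebra.adjoin_adjoin_coe_preimage (R := F) (s := Set.range gen)
    rw [← h]
    congr 1
    ext a
    constructor
    · rintro ⟨i, rfl⟩
      exact ⟨i, rfl⟩
    · rintro ⟨i, hi⟩
      exact ⟨i, Subtype.ext hi⟩
  · apply Subtype.ext
    exact cancel
  · intro m
    refine ⟨W (m + 1), inferInstance, Fintype.ofFinite _, Classical.decEq _, rho (m + 1), ?_⟩
    intro j hj h
    refine iter_ne j (m + 1) (by omega) ?_
    refine LinearMap.ext fun g => ?_
    have h1 := DFunLike.congr_fun h g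
    have h2 := iter_val j 1
    show (Psi^[j] (1 : R)) (m + 1) g = 0
    rw [show (1 : R) = (1 : A).1 from rfl, ← h2]
    exact h1

end

end Pool.Agent.N946.MX
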